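import Mathlib
import Pool.Agent.Lib.helper13.Tori
import Pool.Agent.Lib.helper13.CptC

set_option autoImplicit false

namespace Pool.Agent.H.MP_f8d790_al

open Set Filter Topology Pool.Agent.Lib.helper13 Pool.Agent.Lib.helper13.VN
  Pool.Agent.Lib.helper13.CptA Pool.Agent.Lib.helper13.Tori
open scoped Pointwise

lemma jordan {G : Type} [Group G] (U : Subgroup G) [Finite (G ⧸ U)]
    (h : ∀ x, ∃ k, k * x * k⁻¹ ∈ U) : U = ⊤ := by
  classical
  have := Fintype.ofFinite (G ⧸ U)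
  let H : G ⧸ U → Subgroup G := fun q => U.comap (MulAut.conj q.out⁻¹).toMonoidHom
  have i (q) : (H q).index = U.index := U.index_comap_of_surjective (MulEquiv.surjective _)
  have n : U.index ≠ 0 := Subgroup.index_ne_zero_of_finite
  have c : ⋃ q ∈ (Finset.univ : Finset (G ⧸ U)), (1 : G) • (H q : Set G) = univ :=
    eq_univ_of_forall fun x => by
      obtain ⟨k, hk⟩ := h x
      obtain ⟨u, hu⟩ := QuotientGroup.mk_out_eq_mul U k⁻¹
      refine mem_biUnion (Finset.mem_univ ((k⁻¹ : G) : G ⧸ U)) ?_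
      rw [one_smul]
      show _ ∈ U
      simpa [hu, mul_assoc] using mul_mem (mul_mem (inv_mem u.2) hk) u.2
  have d := Subgroup.pairwiseDisjoint_leftCoset_cover_of_sum_inv_index_eq_one c (by
    simp only [i, Finset.sum_const, Finset.card_univ, nsmul_eq_mul]
    rw [← Nat.card_eq_fintype_card]
    exact mul_inv_cancel₀ (Nat.cast_ne_zero.2 n))
  refine eq_top_iff.2 fun x _ => by_contra fun k => ?_
  have := d (x := (x : G ⧸ U)) (y := ((1 : G) : G ⧸ U)) (by simpa using ⟨i _ ▸ n⟩)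
    (by simpa using ⟨i _ ▸ n⟩) fun e => k (by simpa using QuotientGroup.eq.1 e.symm)
  exact disjoint_left.1 this (show (1 : G) ∈ _ by simp) (by simp)

variable {G : Type} [Group G] [TopologicalSpace G] [IsTopologicalGroup G] [CompactSpace G]

lemma back (N : Subgroup G) [hn : N.Normal] (h1 : ∀ a ∈ N, ∀ b ∈ N, a * b = b * a)
    [TotallyDisconnectedSpace (G ⧸ N)] (H : Subgroup G) (h2 : IsClosed (H : Set G))
    (hN : IsClosed (N : Set G)) (h : ∀ x, ∃ k, k * x * k⁻¹ ∈ H) : H = ⊤ := by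
  have c : IsClosed (H.map (QuotientGroup.mk' N) : Set (G ⧸ N)) :=
    (h2.isCompact.image QuotientGroup.continuous_mk).isClosed
  have e := ProfiniteGrp.closedSubgroup_eq_sInf_open (G := G ⧸ N) ⟨_, c⟩
  have t : H.map (QuotientGroup.mk' N) = ⊤ := e.trans (sInf_eq_top.2 fun U hU => by
    have := U.quotient_finite_of_isOpen hU.1
    refine jordan U fun x => ?_
    obtain ⟨x, rfl⟩ := QuotientGroup.mk_surjective x
    obtain ⟨k, hk⟩ := h x
    exact ⟨k, hU.2 ⟨_, hk, rfl⟩⟩)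
  have s (x : G) : ∃ y ∈ H, y⁻¹ * x ∈ N := by
    obtain ⟨y, a, b⟩ := t.ge (Subgroup.mem_top (x : G ⧸ N))
    exact ⟨y, a, QuotientGroup.eq.1 b⟩
  have l : N ≤ H := fun x hx => by
    obtain ⟨k, hk⟩ := h x
    obtain ⟨y, a, b⟩ := s k
    have := mul_mem (mul_mem (inv_mem a) hk) a
    rwa [show y⁻¹ * (k * x * k⁻¹) * y = (y⁻¹ * k * x) * (y⁻¹ * k)⁻¹ by group, h1 _ b _ hx,
      mul_inv_cancel_right] at this
  refine eq_top_iff.2 fun x _ => ?_
  obtain ⟨y, a, b⟩ := s x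
  simpa using mul_mem a (l b)

variable [T2Space G]

lemma fwd (h : ∀ H : Subgroup G, IsClosed (H : Set G) → (∀ x, ∃ k, k * x * k⁻¹ ∈ H) → H = ⊤)
    {a b : G} (ha : a ∈ connectedComponent (1 : G)) (hb : b ∈ connectedComponent (1 : G)) :
    a * b = b * a := by
  obtain ⟨ι, A, _, _, _, _, ρ, hF, -⟩ := CptC.reps (K := G)
  by_contra k
  obtain ⟨i, hi⟩ := hF.sep (a * b * a⁻¹ * b⁻¹) fun e => k (by simpa [mul_inv_eq_iff_eq_mul] using e)
  have hc := hF.c i
  have u : IsClosed ((⊤ : Subgroup G) : Set G) := isClosed_univ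
  obtain ⟨T, t1, -⟩ := torus hc u (one_mem _)
  have t2 := h _ (st_cl hc T) fun x => (meets hc u t1 (le_st hc u trivial)).imp fun k hk => hk.2
  have t3 : lie (cg hc u) ≤ T := fun X hX => by
    obtain ⟨Y, y1, y2⟩ := cent hc u (W := T) (fun k => t2.ge trivial) (fun x h => (t1.ge h).1) hX
    rw [lie_cen hc u, t1] at y2
    simpa using add_mem y2 y1
  have op (W : Set (A i)) (hW : ∀ X ∈ lie (cg hc u), ∀ Y ∈ W, Commute X Y) :
      connectedComponent (1 : G) ⊆ cen (ρ i) ⊤ W := by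
    have o : IsOpen (cen (ρ i) ⊤ W : Set G) := Subgroup.isOpen_of_mem_nhds _ (g := 1) (by
      filter_upwards [(hc.tendsto' 1 1 (ρ i).map_one).eventually (vn' (cg hc u))] with x hx
      exact ⟨trivial, fun Y hY => hx.1 ▸ (hW _ (hx.2 ⟨x, trivial, rfl⟩) Y hY).exp_left⟩)
    exact IsClopen.connectedComponent_subset ⟨cen_cl hc u W, o⟩ (one_mem _)
  have h1 := op _ fun X hX Y hY => (t1.ge (t3 hX)).2 Y (t3 hY)
  have h2 := (op {ρ i b} (fun X hX Y hY => hY ▸ ((h1 hb).2 X hX).symm) ha).2 _ rfl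
  refine hi ?_
  rw [map_mul, map_mul, map_mul, h2.eq]
  simp only [← map_mul]
  simp

end Pool.Agent.H.MP_f8d790_al
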